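import Pool.Agent.Lib.MP_8501c9_pr.Lower
import Pool.Agent.Lib.MP_8501c9_pr.UpperI
import Pool.Agent.Lib.MP_8501c9_pr.UpperII

/-!
# Two-neighbour bootstrap percolation on the grid in intermediate dimensions

For `d = O(log n)` the critical probability of two-neighbour bootstrap percolation on `[n]^d` is
`exp (-(d - 1) * ell (log n / d))` up to a factor `d ^ O(1)`, uniformly as `d` tends to infinity.
-/

set_option autoImplicit false

namespace Pool.Agent.Lib.MP_8501c9_pr.Old.IntermediateRegime

open Pool.Agent.Lib.MP_8501c9_pr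

/-- Up to a factor `d ^ O(1)`, the critical probability is `exp (-(d - 1) * ell (log n / d))`
in the whole regime `d → ∞`, `d = O(log n)`. -/
theorem result (C : ℝ) : ∃ K D : ℝ, ∀ n d : ℕ, D ≤ d → (d : ℝ) ≤ C * Real.log n →
    |Real.log (pc n d 2) + (d - 1) * ell (Real.log n / d)| ≤ K * Real.log d := by
  rcases le_or_gt C 0 with hC | hC
  · refine ⟨0, 1, fun n d hd hdC => ?_⟩
    exfalso
    have h1 : C * Real.log n ≤ 0 := mul_nonpos_of_nonpos_of_nonneg hC (Real.log_natCast_nonneg n)
    linarith
  obtain ⟨K1, D1, h1⟩ := lower C hC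
  obtain ⟨K2, D2, h2⟩ := upper_I C hC
  obtain ⟨K3, D3, h3⟩ := upper_II
  refine ⟨max K1 (max K2 K3), max 2 (max D1 (max D2 D3)), fun n d hd hdC => ?_⟩
  have hd2 : (2 : ℝ) ≤ d := (le_max_left _ _).trans hd
  have hdD1 : D1 ≤ d := ((le_max_left _ _).trans (le_max_right _ _)).trans hd
  have hdD2 : D2 ≤ d :=
    (((le_max_left _ _).trans (le_max_right _ _)).trans (le_max_right _ _)).trans hd
  have hdD3 : D3 ≤ d :=
    (((le_max_right _ _).trans (le_max_right _ _)).trans (le_max_right _ _)).trans hd
  have hd2' : 2 ≤ d := by exact_mod_cast hd2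
  have hn : 2 ≤ n := by
    by_contra hcon
    have h4 : n = 0 ∨ n = 1 := by omega
    have h5 : Real.log n = 0 := by
      rcases h4 with h4 | h4 <;> simp [h4]
    rw [h5, mul_zero] at hdC
    linarith
  have hld : 0 ≤ Real.log d := Real.log_nonneg (by linarith)
  have hlow := h1 n d hn hd2' hdD1 hdC
  have hup : pc n d 2 ≤
      Real.exp (-((d - 1) * ell (Real.log n / d) - max K2 K3 * Real.log d)) := by
    rcases le_total (Real.log n) ((d : ℝ) ^ 3) with h6 | h6
    · refine (h2 n d hn hd2' hdD2 hdC h6).trans (Real.exp_le_exp.2 ?_)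
      have := mul_le_mul_of_nonneg_right (le_max_left K2 K3) hld
      linarith
    · refine (h3 n d hn hd2' hdD3 h6).trans (Real.exp_le_exp.2 ?_)
      have := mul_le_mul_of_nonneg_right (le_max_right K2 K3) hld
      linarith
  have hpos : 0 < pc n d 2 := (Real.exp_pos _).trans_le hlow
  have h7 := Real.log_le_log (Real.exp_pos _) hlow
  have h8 := Real.log_le_log hpos hup
  rw [Real.log_exp] at h7 h8
  have h9 := mul_le_mul_of_nonneg_right (le_max_left K1 (max K2 K3)) hld
  have h10 := mul_le_mul_of_nonneg_right (le_max_right K1 (max K2 K3)) hld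
  rw [abs_le]
  constructor <;> linarith

end Pool.Agent.Lib.MP_8501c9_pr.Old.IntermediateRegime
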